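import Pool.Agent.Helper20.RG.St3

/-!
# Project RG, module ERR
-/

set_option autoImplicit false

open MeasureTheory Set Filter Topology
open scoped ENNReal RealInnerProductSpace FourierTransform

namespace Pool.Agent.Helper74.RG

open Pool.Agent.Helper20.RG
open Pool.Agent.Helper68.LM (Pl BB Bd Av HL ft fm DQ)

private theorem bb_int (g : Pl → ℝ) (hg : BB g) : Integrable g := by
  obtain ⟨hm, K, hK, hs⟩ := hg
  have h1 : Integrable (indicator (Metric.closedBall (0 : Pl) K) fun _ => K) :=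
    (integrable_indicator_iff Metric.isClosed_closedBall.measurableSet).2
      (integrableOn_const (measure_closedBall_lt_top.ne))
  refine h1.mono' hm.aestronglyMeasurable (Filter.Eventually.of_forall fun x => ?_)
  by_cases hx : x ∈ Metric.closedBall (0 : Pl) K
  · rw [indicator_of_mem hx, Real.norm_eq_abs]
    exact hK x
  · rw [indicator_of_notMem hx, hs x (by simpa using hx), norm_zero]

private theorem bb_lin (a b : ℝ) (g h : Pl → ℝ) (hg : BB g) (hh : BB h) :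
    BB (fun x => a * g x + b * h x) := by
  obtain ⟨hm, K, hK, hs⟩ := hg
  obtain ⟨hm', K', hK', hs'⟩ := hh
  have hK0 : 0 ≤ K := (abs_nonneg _).trans (hK 0)
  have hK0' : 0 ≤ K' := (abs_nonneg _).trans (hK' 0)
  have ha := abs_nonneg a
  have hb := abs_nonneg b
  have p1 : 0 ≤ |a| * K := by positivity
  have p2 : 0 ≤ |b| * K' := by positivity
  refine ⟨(hm.const_mul a).add (hm'.const_mul b), |a| * K + |b| * K' + K + K', fun x => ?_,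
    fun x hx => ?_⟩
  · have h1 : |a * g x| ≤ |a| * K := by
      rw [abs_mul]
      exact mul_le_mul_of_nonneg_left (hK x) ha
    have h2 : |b * h x| ≤ |b| * K' := by
      rw [abs_mul]
      exact mul_le_mul_of_nonneg_left (hK' x) hb
    have h3 := abs_add_le (a * g x) (b * h x)
    show |a * g x + b * h x| ≤ _
    linarith
  · have h1 := hs x (by linarith)
    have h2 := hs' x (by linarith)
    simp [h1, h2]

private theorem ft_lin (a b : ℝ) (g h : Pl → ℝ) (hg : BB g) (hh : BB h) (ξ : Pl) :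
    ft (fun x => a * g x + b * h x) ξ = (a : ℂ) * ft g ξ + (b : ℂ) * ft h ξ := by
  have key : ∀ f : Pl → ℝ, BB f → Integrable
      (fun v : Pl => Complex.exp (((-2 * Real.pi * ⟪v, ξ⟫ : ℝ) : ℂ) * Complex.I) • (f v : ℂ)) := by
    intro f hf
    refine ((bb_int f hf).ofReal (𝕜 := ℂ)).mono ?_ (Filter.Eventually.of_forall fun x => ?_)
    · have hc : Continuous (fun v : Pl =>
          Complex.exp (((-2 * Real.pi * ⟪v, ξ⟫ : ℝ) : ℂ) * Complex.I)) := by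
        fun_prop
      exact hc.aestronglyMeasurable.smul ((bb_int f hf).ofReal (𝕜 := ℂ)).aestronglyMeasurable
    · rw [norm_smul, Complex.norm_exp_ofReal_mul_I, one_mul]
      exact le_rfl
  unfold ft
  rw [Real.fourier_eq', Real.fourier_eq', Real.fourier_eq', ← integral_const_mul,
    ← integral_const_mul, ← integral_add ((key g hg).const_mul _) ((key h hh).const_mul _)]
  refine integral_congr_ae (Filter.Eventually.of_forall fun x => ?_)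
  simp only [smul_eq_mul]
  push_cast
  ring

private theorem sum_pair (f : ℕ → ℝ) (n : ℕ) :
    ∑ j ∈ Finset.range (2 * n), f j = ∑ p ∈ Finset.range n, (f (2 * p) + f (2 * p + 1)) := by
  induction n with
  | zero => simp
  | succ n ih =>
    rw [show 2 * (n + 1) = 2 * n + 1 + 1 by ring, Finset.sum_range_succ, Finset.sum_range_succ, ih,
      Finset.sum_range_succ]
    ring

private theorem en_sq (r : ℝ) : ‖r‖ₑ ^ 2 = ENNReal.ofReal (r ^ 2) := by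
  rw [Real.enorm_eq_ofReal_abs, ← ENNReal.ofReal_pow (abs_nonneg r), sq_abs]

/-- the combination of two `L^2` bounds -/
private theorem comb (N M : ℕ) (F : ℤ → Pl → ℝ) (S T : ℤ → ℕ → Pl → ℝ) (a b P Q : ℝ)
    (I : ℝ≥0∞) (hP : 0 ≤ P) (hQ : 0 ≤ Q)
    (hS : ∀ k, ∀ j < N, Measurable (S k j)) (hT : ∀ k, ∀ j < M, Measurable (T k j))
    (hF : ∀ k x, F k x = a * ∑ j ∈ Finset.range N, S k j x + b * ∑ j ∈ Finset.range M, T k j x)
    (h1 : ∑' k : ℤ, ∫⁻ x, ‖∑ j ∈ Finset.range N, S k j x‖ₑ ^ 2 ≤ ENNReal.ofReal P * I)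
    (h2 : ∑' k : ℤ, ∫⁻ x, ‖∑ j ∈ Finset.range M, T k j x‖ₑ ^ 2 ≤ ENNReal.ofReal Q * I) :
    ∑' k : ℤ, ∫⁻ x, ‖F k x‖ₑ ^ 2 ≤ ENNReal.ofReal (2 * a ^ 2 * P + 2 * b ^ 2 * Q) * I := by
  have mS : ∀ k, Measurable fun x => ∑ j ∈ Finset.range N, S k j x := fun k =>
    Finset.measurable_sum _ fun j hj => hS k j (Finset.mem_range.1 hj)
  have mT : ∀ k, Measurable fun x => ∑ j ∈ Finset.range M, T k j x := fun k =>
    Finset.measurable_sum _ fun j hj => hT k j (Finset.mem_range.1 hj)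
  have pt : ∀ k x, ‖F k x‖ₑ ^ 2 ≤
      ENNReal.ofReal (2 * a ^ 2) * ‖∑ j ∈ Finset.range N, S k j x‖ₑ ^ 2 +
        ENNReal.ofReal (2 * b ^ 2) * ‖∑ j ∈ Finset.range M, T k j x‖ₑ ^ 2 := by
    intro k x
    rw [en_sq, en_sq, en_sq, ← ENNReal.ofReal_mul (by positivity),
      ← ENNReal.ofReal_mul (by positivity), ← ENNReal.ofReal_add (by positivity) (by positivity)]
    apply ENNReal.ofReal_le_ofReal
    rw [hF]
    nlinarith [sq_nonneg (a * ∑ j ∈ Finset.range N, S k j x - b * ∑ j ∈ Finset.range M, T k j x)]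
  have step : ∀ k, ∫⁻ x, ‖F k x‖ₑ ^ 2 ≤
      ENNReal.ofReal (2 * a ^ 2) * (∫⁻ x, ‖∑ j ∈ Finset.range N, S k j x‖ₑ ^ 2) +
        ENNReal.ofReal (2 * b ^ 2) * ∫⁻ x, ‖∑ j ∈ Finset.range M, T k j x‖ₑ ^ 2 := by
    intro k
    refine (lintegral_mono (pt k)).trans ?_
    rw [lintegral_add_left (((mS k).enorm.pow_const 2).const_mul _),
      lintegral_const_mul _ ((mS k).enorm.pow_const 2),
      lintegral_const_mul _ ((mT k).enorm.pow_const 2)]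
  refine (ENNReal.tsum_le_tsum step).trans ?_
  rw [ENNReal.tsum_add, ENNReal.tsum_mul_left, ENNReal.tsum_mul_left]
  refine (add_le_add (mul_le_mul' le_rfl h1) (mul_le_mul' le_rfl h2)).trans ?_
  rw [← mul_assoc, ← mul_assoc, ← ENNReal.ofReal_mul (by positivity),
    ← ENNReal.ofReal_mul (by positivity), ← add_mul,
    ← ENNReal.ofReal_add (by positivity) (by positivity)]

theorem hERR (hPT : StPT) (hYB : StYB) (hMM : StMM) (hSYS : StSYS) (hCHI : StCHI) (hE1 : StE1)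
    (hE2 : StE2) (hL2A : StL2A) : StERR := by
  intro φ τ A σ c hG hGap hA hσ
  obtain ⟨C₁, hC₁, h1⟩ := hE1 200 (by norm_num)
  obtain ⟨C₂, hC₂, h2⟩ := hE2 200 (by norm_num)
  refine ⟨2 * C₂ ^ 2 + 4 * C₁ ^ 2, by positivity, ?_⟩
  intro u W hu g hg
  obtain ⟨v, rfl⟩ : ∃ v, u = v + 1 := ⟨u - 1, by omega⟩
  have hv : 1 ≤ v := by omega
  obtain ⟨-, hs2⟩ := hSYS φ τ A σ c hG hGap hA hσ (v + 1) (by omega)
  have hs2 := hs2 hu
  obtain ⟨hs1, -⟩ := hSYS φ τ A σ c hG hGap hA hσ v hv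
  simp only [Nat.add_sub_cancel] at hs2 ⊢
  have hsl : ∀ t, |τ t| ≤ 1 := hG.1
  have p2 : (0 : ℝ) < (2 : ℝ) ^ v := by positivity
  have e12 : (1 : ℝ) / (2 * (2 : ℝ) ^ v) = 1 / (2 : ℝ) ^ (v + 1) := by rw [pow_succ, mul_comm]
  -- the first family
  have hT1 : ∀ (k : ℤ), ∀ j < 2 ^ (v + 1),
      BB (fun x => 1 * Z (τ (tm (v + 1) j)) (ce c φ (v + 1) j) (mm τ (v + 1) j) (mm τ v (j / 2))
        (1 / (2 : ℝ) ^ (v + 1)) k g x + (-1) * Z (τ (tm (v + 1) j)) (ce c φ (v + 1) j)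
        (mm τ (v + 1) j) (mm τ v (j / 2)) ((2 : ℝ) ^ W) k g x) ∧
      ∀ ξ : Pl, ft (fun x => 1 * Z (τ (tm (v + 1) j)) (ce c φ (v + 1) j) (mm τ (v + 1) j)
        (mm τ v (j / 2)) (1 / (2 : ℝ) ^ (v + 1)) k g x + (-1) * Z (τ (tm (v + 1) j))
        (ce c φ (v + 1) j) (mm τ (v + 1) j) (mm τ v (j / 2)) ((2 : ℝ) ^ W) k g x) ξ =
      (Zh (τ (tm (v + 1) j)) (ce c φ (v + 1) j) (mm τ (v + 1) j) (mm τ v (j / 2))
          (1 / (2 : ℝ) ^ (v + 1)) ((2 : ℝ) ^ k • ξ) -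
        Zh (τ (tm (v + 1) j)) (ce c φ (v + 1) j) (mm τ (v + 1) j) (mm τ v (j / 2))
          ((2 : ℝ) ^ W) ((2 : ℝ) ^ k • ξ)) * ft g ξ := by
    intro k j _
    have zz : ∀ ℓ : ℝ, 0 < ℓ → BB (Z (τ (tm (v + 1) j)) (ce c φ (v + 1) j) (mm τ (v + 1) j)
        (mm τ v (j / 2)) ℓ k g) ∧ ∀ ξ : Pl, ft (Z (τ (tm (v + 1) j)) (ce c φ (v + 1) j)
        (mm τ (v + 1) j) (mm τ v (j / 2)) ℓ k g) ξ = Zh (τ (tm (v + 1) j)) (ce c φ (v + 1) j)
        (mm τ (v + 1) j) (mm τ v (j / 2)) ℓ ((2 : ℝ) ^ k • ξ) * ft g ξ := by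
      intro ℓ hℓ
      obtain ⟨b1, f1, -⟩ := hYB (τ (tm (v + 1) j)) (ce c φ (v + 1) j) (mm τ (v + 1) j) ℓ k g
        (hsl _) hℓ hg
      obtain ⟨b2, f2, -⟩ := hYB (τ (tm (v + 1) j)) (ce c φ (v + 1) j) (mm τ v (j / 2)) ℓ k g
        (hsl _) hℓ hg
      have hz : Z (τ (tm (v + 1) j)) (ce c φ (v + 1) j) (mm τ (v + 1) j) (mm τ v (j / 2)) ℓ k g =
          fun x => 1 * Y (τ (tm (v + 1) j)) (ce c φ (v + 1) j) (mm τ (v + 1) j) ℓ k g x +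
            (-1) * Y (τ (tm (v + 1) j)) (ce c φ (v + 1) j) (mm τ v (j / 2)) ℓ k g x := by
        funext x
        unfold Z
        ring
      rw [hz]
      refine ⟨bb_lin _ _ _ _ b1 b2, fun ξ => ?_⟩
      rw [ft_lin _ _ _ _ b1 b2, f1, f2]
      unfold Zh
      push_cast
      ring
    obtain ⟨b1, f1⟩ := zz (1 / (2 : ℝ) ^ (v + 1)) (by positivity)
    obtain ⟨b2, f2⟩ := zz ((2 : ℝ) ^ W) (by positivity)
    refine ⟨bb_lin _ _ _ _ b1 b2, fun ξ => ?_⟩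
    rw [ft_lin _ _ _ _ b1 b2, f1, f2]
    push_cast
    ring
  -- the second family
  have hT2 : ∀ (k : ℤ), ∀ p < 2 ^ v,
      BB (fun x => 1 * (1 / 2 * Y (τ (tm (v + 1) (2 * p))) (ce c φ (v + 1) (2 * p)) (mm τ v p)
        (1 / (2 * (2 : ℝ) ^ v)) k g x + 1 / 2 * Y (τ (tm (v + 1) (2 * p + 1)))
        (ce c φ (v + 1) (2 * p + 1)) (mm τ v p) (1 / (2 * (2 : ℝ) ^ v)) k g x) +
        (-1) * Y (τ (tm v p)) (ce c φ v p) (mm τ v p) (1 / (2 : ℝ) ^ v) k g x) ∧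
      ∀ ξ : Pl, ft (fun x => 1 * (1 / 2 * Y (τ (tm (v + 1) (2 * p))) (ce c φ (v + 1) (2 * p))
        (mm τ v p) (1 / (2 * (2 : ℝ) ^ v)) k g x + 1 / 2 * Y (τ (tm (v + 1) (2 * p + 1)))
        (ce c φ (v + 1) (2 * p + 1)) (mm τ v p) (1 / (2 * (2 : ℝ) ^ v)) k g x) +
        (-1) * Y (τ (tm v p)) (ce c φ v p) (mm τ v p) (1 / (2 : ℝ) ^ v) k g x) ξ =
      ((Yh (τ (tm (v + 1) (2 * p))) (ce c φ (v + 1) (2 * p)) (mm τ v p) (1 / (2 * (2 : ℝ) ^ v))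
          ((2 : ℝ) ^ k • ξ) + Yh (τ (tm (v + 1) (2 * p + 1))) (ce c φ (v + 1) (2 * p + 1))
          (mm τ v p) (1 / (2 * (2 : ℝ) ^ v)) ((2 : ℝ) ^ k • ξ)) / 2 -
        Yh (τ (tm v p)) (ce c φ v p) (mm τ v p) (1 / (2 : ℝ) ^ v) ((2 : ℝ) ^ k • ξ)) * ft g ξ := by
    intro k p _
    obtain ⟨b1, f1, -⟩ := hYB (τ (tm (v + 1) (2 * p))) (ce c φ (v + 1) (2 * p)) (mm τ v p)
      (1 / (2 * (2 : ℝ) ^ v)) k g (hsl _) (by positivity) hg
    obtain ⟨b2, f2, -⟩ := hYB (τ (tm (v + 1) (2 * p + 1))) (ce c φ (v + 1) (2 * p + 1)) (mm τ v p)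
      (1 / (2 * (2 : ℝ) ^ v)) k g (hsl _) (by positivity) hg
    obtain ⟨b3, f3, -⟩ := hYB (τ (tm v p)) (ce c φ v p) (mm τ v p)
      (1 / (2 : ℝ) ^ v) k g (hsl _) (by positivity) hg
    have b4 := bb_lin (1 / 2) (1 / 2) _ _ b1 b2
    refine ⟨bb_lin 1 (-1) _ _ b4 b3, fun ξ => ?_⟩
    rw [ft_lin 1 (-1) _ _ b4 b3, ft_lin (1 / 2) (1 / 2) _ _ b1 b2, f1, f2, f3]
    push_cast
    ring
  obtain ⟨S, hS⟩ : ∃ S : ℝ, S = Real.sqrt ((2 : ℝ) ^ (v + 1)) := ⟨_, rfl⟩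
  obtain ⟨Sv, hSv⟩ : ∃ Sv : ℝ, Sv = Real.sqrt ((2 : ℝ) ^ v) := ⟨_, rfl⟩
  have hSp : 0 < S := by rw [hS]; positivity
  have hSvp : 0 < Sv := by rw [hSv]; positivity
  have hS2 : S ^ 2 = (2 : ℝ) ^ (v + 1) := by rw [hS, Real.sq_sqrt (by positivity)]
  have hSv2 : Sv ^ 2 = (2 : ℝ) ^ v := by rw [hSv, Real.sq_sqrt (by positivity)]
  have hW0 : (1 : ℝ) ≤ (W : ℝ) + ((v + 1 : ℕ) : ℝ) + 1 := by
    have : (0 : ℝ) ≤ (W : ℝ) := Nat.cast_nonneg _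
    have : (0 : ℝ) ≤ ((v + 1 : ℕ) : ℝ) := Nat.cast_nonneg _
    linarith
  have L1 := hL2A (2 ^ (v + 1)) _ _ g (C₂ * S)
    (C₂ * ((2 : ℝ) ^ (v + 1) * ((W : ℝ) + ((v + 1 : ℕ) : ℝ) + 1))) hg (by positivity)
    (by positivity) hT1 (fun ξ hξ => by
      rw [hS]
      exact (h2 (v + 1) _ _ _ _ _ _ _ _ hs2 W ξ hξ).1) (fun ξ hξ =>
      (h2 (v + 1) _ _ _ _ _ _ _ _ hs2 W ξ hξ).2)
  have hch := fun p (hp : p < 2 ^ v) => hCHI φ τ A σ c hG hGap hA hσ v p hv hp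
  have E1 := h1 v (fun p => τ (tm v p)) (ce c φ v) (mm τ v) _ _ _ _
    (fun p => τ (tm (v + 1) (2 * p))) (fun p => τ (tm (v + 1) (2 * p + 1)))
    (fun p => ce c φ (v + 1) (2 * p)) (fun p => ce c φ (v + 1) (2 * p + 1)) hs1
    (fun p hp => by
      obtain ⟨c1, c2, c3, c4, c5, c6⟩ := hch p hp
      exact ⟨hsl _, hsl _, c1, c2, c3, c4, c5, c6⟩)
  have L2 := hL2A (2 ^ v) _ _ g (C₁ * Sv) (C₁ * (2 : ℝ) ^ v) hg (by positivity)
    (by positivity) hT2 (fun ξ hξ => by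
      rw [hSv]
      exact (E1 ξ hξ).1) (fun ξ hξ => (E1 ξ hξ).2)
  have hfin := comb (2 ^ (v + 1)) (2 ^ v) (fun k x => Sa c φ τ (v + 1) k g x - Sa c φ τ v k g x -
        (1 / (2 : ℝ) ^ (v + 1)) * ∑ j ∈ Finset.range (2 ^ (v + 1)), Z (τ (tm (v + 1) j))
          (ce c φ (v + 1) j) (mm τ (v + 1) j) (mm τ v (j / 2)) ((2 : ℝ) ^ W) k g x) _ _
    (1 / (2 : ℝ) ^ (v + 1)) (1 / (2 : ℝ) ^ v) _ _ _ (by positivity) (by positivity)
    (fun k j hj => (hT1 k j hj).1.1) (fun k p hp => (hT2 k p hp).1.1) (fun k x => by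
      show Sa c φ τ (v + 1) k g x - Sa c φ τ v k g x - _ = _
      unfold Sa
      have hp := sum_pair (fun j => Y (τ (tm (v + 1) j)) (ce c φ (v + 1) j) (mm τ v (j / 2))
        (1 / (2 : ℝ) ^ (v + 1)) k g x) (2 ^ v)
      have hdiv1 : ∀ p : ℕ, 2 * p / 2 = p := fun p => by omega
      have hdiv2 : ∀ p : ℕ, (2 * p + 1) / 2 = p := fun p => by omega
      simp only [hdiv1, hdiv2] at hp
      rw [show 2 * 2 ^ v = 2 ^ (v + 1) by rw [pow_succ, mul_comm]] at hp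
      simp only [e12]
      have q1 : ∑ j ∈ Finset.range (2 ^ (v + 1)),
          (1 * Z (τ (tm (v + 1) j)) (ce c φ (v + 1) j) (mm τ (v + 1) j) (mm τ v (j / 2))
            (1 / (2 : ℝ) ^ (v + 1)) k g x + (-1) * Z (τ (tm (v + 1) j)) (ce c φ (v + 1) j)
            (mm τ (v + 1) j) (mm τ v (j / 2)) ((2 : ℝ) ^ W) k g x) =
          ∑ j ∈ Finset.range (2 ^ (v + 1)), Y (τ (tm (v + 1) j)) (ce c φ (v + 1) j)
            (mm τ (v + 1) j) (1 / (2 : ℝ) ^ (v + 1)) k g x -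
          ∑ j ∈ Finset.range (2 ^ (v + 1)), Y (τ (tm (v + 1) j)) (ce c φ (v + 1) j)
            (mm τ v (j / 2)) (1 / (2 : ℝ) ^ (v + 1)) k g x -
          ∑ j ∈ Finset.range (2 ^ (v + 1)), Z (τ (tm (v + 1) j)) (ce c φ (v + 1) j)
            (mm τ (v + 1) j) (mm τ v (j / 2)) ((2 : ℝ) ^ W) k g x := by
        rw [← Finset.sum_sub_distrib, ← Finset.sum_sub_distrib]
        refine Finset.sum_congr rfl fun j _ => ?_
        unfold Z
        ring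
      have q2 : ∑ p ∈ Finset.range (2 ^ v),
          (1 * (1 / 2 * Y (τ (tm (v + 1) (2 * p))) (ce c φ (v + 1) (2 * p)) (mm τ v p)
            (1 / (2 : ℝ) ^ (v + 1)) k g x + 1 / 2 * Y (τ (tm (v + 1) (2 * p + 1)))
            (ce c φ (v + 1) (2 * p + 1)) (mm τ v p) (1 / (2 : ℝ) ^ (v + 1)) k g x) +
            (-1) * Y (τ (tm v p)) (ce c φ v p) (mm τ v p) (1 / (2 : ℝ) ^ v) k g x) =
          1 / 2 * ∑ p ∈ Finset.range (2 ^ v), (Y (τ (tm (v + 1) (2 * p)))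
            (ce c φ (v + 1) (2 * p)) (mm τ v p) (1 / (2 : ℝ) ^ (v + 1)) k g x +
            Y (τ (tm (v + 1) (2 * p + 1))) (ce c φ (v + 1) (2 * p + 1)) (mm τ v p)
            (1 / (2 : ℝ) ^ (v + 1)) k g x) -
          ∑ p ∈ Finset.range (2 ^ v), Y (τ (tm v p)) (ce c φ v p) (mm τ v p)
            (1 / (2 : ℝ) ^ v) k g x := by
        rw [Finset.mul_sum, ← Finset.sum_sub_distrib]
        refine Finset.sum_congr rfl fun p _ => ?_
        ring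
      rw [q1, q2, ← hp]
      rw [pow_succ (2 : ℝ) v]
      field_simp
      ring) L1 L2
  refine hfin.trans (mul_le_mul' (ENNReal.ofReal_le_ofReal ?_) le_rfl)
  have hr : (2 : ℝ) ^ (-(((v + 1 : ℕ) : ℝ) / 2)) = 1 / S := by
    rw [hS, Real.sqrt_eq_rpow, ← Real.rpow_natCast 2 (v + 1), ← Real.rpow_mul (by norm_num),
      Real.rpow_neg (by norm_num), one_div]
    congr 2
    ring
  rw [hr]
  have hSSv : S ≤ 2 * Sv := by
    have : S ^ 2 = 2 * Sv ^ 2 := by rw [hS2, hSv2, pow_succ, mul_comm]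
    nlinarith
  have t1 : 2 * (1 / (2 : ℝ) ^ (v + 1)) ^ 2 * (C₂ * S *
      (C₂ * ((2 : ℝ) ^ (v + 1) * ((W : ℝ) + ((v + 1 : ℕ) : ℝ) + 1)))) =
      2 * C₂ ^ 2 * (1 / S) * ((W : ℝ) + ((v + 1 : ℕ) : ℝ) + 1) := by
    rw [← hS2]
    field_simp
  have t2 : 2 * (1 / (2 : ℝ) ^ v) ^ 2 * (C₁ * Sv * (C₁ * (2 : ℝ) ^ v)) =
      2 * C₁ ^ 2 * (1 / Sv) := by
    rw [← hSv2]
    field_simp
  have t3 : 1 / Sv ≤ 2 * (1 / S) := by
    rw [div_le_iff₀ hSvp]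
    have : 2 * (1 / S) * Sv = (2 * Sv) / S := by ring
    rw [this, le_div_iff₀ hSp]
    linarith
  rw [t1, t2]
  have hCC : 0 < C₁ ^ 2 := by positivity
  have hiS : 0 < 1 / S := by positivity
  have t4 : 2 * C₁ ^ 2 * (1 / Sv) ≤ 4 * C₁ ^ 2 * (1 / S) := by nlinarith
  have t5 : 4 * C₁ ^ 2 * (1 / S) ≤ 4 * C₁ ^ 2 * (1 / S) * ((W : ℝ) + ((v + 1 : ℕ) : ℝ) + 1) :=
    le_mul_of_one_le_right (by positivity) hW0
  calc 2 * C₂ ^ 2 * (1 / S) * ((W : ℝ) + ((v + 1 : ℕ) : ℝ) + 1) + 2 * C₁ ^ 2 * (1 / Sv)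
      ≤ 2 * C₂ ^ 2 * (1 / S) * ((W : ℝ) + ((v + 1 : ℕ) : ℝ) + 1) +
        4 * C₁ ^ 2 * (1 / S) * ((W : ℝ) + ((v + 1 : ℕ) : ℝ) + 1) := by linarith
    _ = (2 * C₂ ^ 2 + 4 * C₁ ^ 2) * (1 / S) * ((W : ℝ) + ((v + 1 : ℕ) : ℝ) + 1) := by ring

end Pool.Agent.Helper74.RG
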